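import Mathlib
import Pool.Agent.V11294.JO.Final

/-!
# The Jameson-Ono congruence for a harmonic-weighted cubed central binomial sum
-/

namespace Pool.Agent.Results.MP_8625e1_nt.JamesonOno

open Finset Pool.Agent.V11294.JO

lemma harmonic_sub (k : ℕ) : harmonic (2 * k) - harmonic k = dl ℚ k := by
  unfold harmonic dl hk
  push_cast
  rfl

/-- For every prime `p > 3`, `p` divides the numerator of
`∑_{k=0}^{(p-1)/2} C(2k,k)^3 (H_{2k} - H_k)`. -/
theorem result (p : ℕ) (hp : p.Prime) (h3 : 3 < p) :
    (p : ℤ) ∣ (∑ k ∈ range ((p - 1) / 2 + 1),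
      ((2 * k).choose k : ℚ) ^ 3 * (harmonic (2 * k) - harmonic k)).num := by
  have hfact := Fact.mk hp
  obtain ⟨n, hn⟩ : Odd p := hp.odd_of_ne_two (by omega)
  have hn2 : (p - 1) / 2 = n := by omega
  rw [hn2]
  by_cases h7 : p = 7
  · have : n = 3 := by omega
    subst this
    subst h7
    simp only [harmonic_sub, dl, hk]
    norm_num [sum_range_succ, Nat.choose]
  · have hsum := sum_mod p n hn h7 h3
    have hNp : ¬ p ∣ (p - 1).factorial := by
      intro h
      have := (hp.dvd_factorial).1 h
      omega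
    obtain ⟨A, hA⟩ : ∃ A : ℕ → ℕ, ∀ k, A k =
        ∑ i ∈ Ico k (2 * k), ((p - 1).factorial / (i + 1)) := ⟨_, fun _ => rfl⟩
    refine num_dvd p (p - 1).factorial hp _ (∑ k ∈ range (n + 1), ((2 * k).choose k : ℤ) ^ 3 *
      (A k : ℤ)) ?_ hNp ?_
    · rw [mul_sum]
      push_cast
      refine sum_congr rfl fun k hk' => ?_
      have hk2 : k ≤ n := by have := mem_range.1 hk'; omega
      have := clear_den ℚ p n hn (fun i _ => by positivity) k hk2
      rw [harmonic_sub, hA, ← this]
      ring
    · rw [← ZMod.intCast_zmod_eq_zero_iff_dvd]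
      push_cast
      have e : ∀ k ∈ range (n + 1), (((2 * k).choose k : ℕ) : ZMod p) ^ 3 * ((A k : ℕ) : ZMod p) =
          (((p - 1).factorial : ℕ) : ZMod p) * (cb (ZMod p) k ^ 3 * dl (ZMod p) k) := by
        intro k hk'
        have hk2 : k ≤ n := by have := mem_range.1 hk'; omega
        have := clear_den (ZMod p) p n hn (fun i hi => by
          have := natCast_ne_zero_of (K := ZMod p) p hp (i + 1) (by omega) (by omega) (by omega)
          push_cast at this; exact this) k hk2
        rw [hA, ← this]
        unfold cb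
        rw [Nat.centralBinom_eq_two_mul_choose]
        ring
      rw [sum_congr rfl e, ← mul_sum, hsum, mul_zero]

end Pool.Agent.Results.MP_8625e1_nt.JamesonOno
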